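import Pool.Agent.H.MP_5cc280_co.Tur

/-!
# Every graph `H`, all large `ω`

For every `u ≥ 2` and every graph `H` with at least `u` dominating vertices there is an explicit
`ω₀` such that for all `ω ≥ ω₀` the lower bound of the problem is asymptotically right,
`c_u(H,Δ,ω) ~ ρ_u(H, T_ω(Δ + ⌊Δ/(ω-1)⌋)) ~ P_H(ω) / (|Aut H| binom(ω,u)) (Δ/(ω-1))^(|V(H)|-u)`.
-/

namespace Pool.Agent.Results.MP_5cc280_co.LargeOmega

open Finset SimpleGraph Filter Topology MP5cc280

/-- The lower bound of the problem is asymptotically right for `u`, `H`, `ω = w`. For `Δ ≥ w` the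
maxima `ex_u(p,H,{K_{1,Δ+1},K_{w+1}})` exist, `ex_u(p,..)/p` converges to `c Δ`, which lies between
`rho H u w Δ = ρ_u(H, T_w(Δ + ⌊Δ/(w-1)⌋))` and `Lc H u w * Δ^s`, `s = |V(H)| - u`. As `Δ → ∞`
`c Δ / Δ^s` tends to `Lc H u w > 0` and `c Δ / rho H u w Δ` to `1`. -/
def Balanced {W : Type} [Fintype W] (H : SimpleGraph W) (u w : ℕ) : Prop :=
  0 < Lc H u w ∧ ∃ c : ℕ → ℝ,
    (∀ Δ, w ≤ Δ →
      (∀ p, IsGreatest (exSet u p H (FF Δ w)) (exu u p H (FF Δ w))) ∧
      Tendsto (fun p : ℕ => (exu u p H (FF Δ w) : ℝ) / p) atTop (𝓝 (c Δ)) ∧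
      rho H u w Δ ≤ c Δ ∧ c Δ ≤ Lc H u w * (Δ : ℝ) ^ (Fintype.card W - u)) ∧
    Tendsto (fun Δ : ℕ => c Δ / (Δ : ℝ) ^ (Fintype.card W - u)) atTop (𝓝 (Lc H u w)) ∧
    Tendsto (fun Δ : ℕ => c Δ / rho H u w Δ) atTop (𝓝 1)

theorem upper {W : Type} [Fintype W] [DecidableEq W] {H : SimpleGraph W} {D : Finset W}
    {u w n Δ p N : ℕ} (hD : D.card = u)
    (hdom : ∀ v ∈ D, ∀ w, w ≠ v → H.Adj v w) (hcard : Fintype.card {w : W // w ∉ D} = n + 1)
    (hu : 2 ≤ u) (huw : u < w)
    (hn : n = 1 ∨ (n + 1) * (u - 1) ≤ w - 1) (hgood : HomGood (rest H D) (w - u))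
    (hN : N ∈ exSet u p H (FF Δ w)) :
    (N : ℝ) ≤ Lc H u w * (Δ : ℝ) ^ (n + 1) * p := by
  classical
  obtain ⟨k, G, h1, h2, h3⟩ := hN
  have hst : (starGraph (0 : Fin (Δ+2))).Free G := h1 ⟨Δ+2, starGraph 0⟩ (Or.inl rfl)
  have hcl : (⊤ : SimpleGraph (Fin (w+1))).Free G := h1 ⟨w+1, ⊤⟩ (Or.inr rfl)
  rw [star_free_iff] at hst
  rw [← cliqueFree_iff_top_free, Fintype.card_fin] at hcl
  rw [copyCount_top] at h2
  have hm := copies_le_gen (G := G) hD hdom hcard hu huw hcl hst hn hgood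
  rw [h2, h3, cLim_eq hD hdom huw.le] at hm
  exact hm

theorem main {W : Type} [Fintype W] [DecidableEq W] [Nonempty W] {H : SimpleGraph W}
    {D : Finset W} {u w n : ℕ} (hD : D.card = u)
    (hdom : ∀ v ∈ D, ∀ w, w ≠ v → H.Adj v w) (hcard : Fintype.card {w : W // w ∉ D} = n + 1)
    (hu : 2 ≤ u) (huw : u < w)
    (hn : n = 1 ∨ (n + 1) * (u - 1) ≤ w - 1) (hgood : HomGood (rest H D) (w - u))
    (hcol : 0 < Nat.card (H →g (⊤ : SimpleGraph (Fin w)))) : Balanced H u w := by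
  classical
  have hW := card_rest D hD
  have hs : Fintype.card W - u = n + 1 := by omega
  have hw2 : 2 ≤ w := by omega
  have hw1 : (0 : ℝ) < (w : ℝ) - 1 := by
    have : (2 : ℝ) ≤ w := by exact_mod_cast hw2
    linarith
  have haut : (0 : ℝ) < Nat.card (H ≃g H) := by exact_mod_cast aut_pos (H := H)
  have hch : (0 : ℝ) < (w.choose u : ℝ) := by exact_mod_cast Nat.choose_pos huw.le
  have hL : 0 < Lc H u w := by
    unfold Lc
    have h1 : (0 : ℝ) < Nat.card (H →g (⊤ : SimpleGraph (Fin w))) := by exact_mod_cast hcol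
    positivity
  have main : ∀ Δ, w ≤ Δ → ∃ c : ℝ,
      (∀ p, IsGreatest (exSet u p H (FF Δ w)) (exu u p H (FF Δ w))) ∧
      Tendsto (fun p : ℕ => (exu u p H (FF Δ w) : ℝ) / p) atTop (𝓝 c) ∧
      rho H u w Δ ≤ c ∧ c ≤ Lc H u w * (Δ : ℝ) ^ (Fintype.card W - u) := by
    intro Δ hΔ
    have hnonempty := exSet_nonempty (H := H) (u := u) (ω := w) (by omega) huw.le hΔ
    have hup : ∀ p, ∀ N ∈ exSet u p H (FF Δ w),
        (N : ℝ) ≤ Lc H u w * (Δ : ℝ) ^ (n + 1) * p :=
      fun p N hN => upper hD hdom hcard hu huw hn hgood hN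
    obtain ⟨c, hc1, hc2, hc3⟩ := fekete (H := H) (u := u) (by omega) conn_FF hnonempty hup
    refine ⟨c, fun p => ?_, hc1, ?_, ?_⟩
    · have hb : BddAbove (exSet u p H (FF Δ w)) := by
        refine ⟨⌈Lc H u w * (Δ : ℝ) ^ (n + 1) * p⌉₊, fun N hN => ?_⟩
        exact_mod_cast (hup p N hN).trans (Nat.le_ceil _)
      exact ⟨exu_mem (hnonempty p) hb, fun N hN => le_csSup hb hN⟩
    · have hm := mem_exSet (H := H) (turanGraph (tn Δ w) w) (u := u) (F := FF Δ w)
        (turan_FF hw2)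
      have hq : 0 < Δ / (w - 1) := Nat.div_pos (by omega) (by omega)
      have h3 := copyCount_mono (H := (⊤ : SimpleGraph (Fin u))) (turanLow (Δ := Δ) hw2)
      rw [copyCount_top (G := completeEquipartiteGraph w (Δ / (w - 1))), kk_equi] at h3
      have hpos : 0 < (turanGraph (tn Δ w) w).copyCount (⊤ : SimpleGraph (Fin u)) :=
        lt_of_lt_of_le (Nat.mul_pos (Nat.choose_pos huw.le) (pow_pos hq u)) h3
      exact hc2 _ hpos _ hm
    · rw [hs]
      exact hc3
  choose! c hc using main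
  have t1 : Tendsto (fun Δ : ℕ => Lc H u w * ((w : ℝ) - 1) ^ (Fintype.card W - u) *
      ((Δ / (w - 1) + 1 - Fintype.card W : ℕ) : ℝ) ^ Fintype.card W /
      ((Δ / (w - 1) + 1 : ℕ) : ℝ) ^ u /
      (Δ : ℝ) ^ (Fintype.card W - u)) atTop (𝓝 (Lc H u w)) :=
    low_tendsto hw2 _ (by omega)
  have ev : ∀ᶠ Δ : ℕ in atTop, w ≤ Δ := eventually_ge_atTop w
  have tr : Tendsto (fun Δ : ℕ => rho H u w Δ / (Δ : ℝ) ^ (Fintype.card W - u)) atTop
      (𝓝 (Lc H u w)) := by
    refine tendsto_of_tendsto_of_tendsto_of_le_of_le' t1 tendsto_const_nhds ?_ ?_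
    · filter_upwards [ev] with Δ hΔ
      exact div_le_div_of_nonneg_right
        (rho_ge hD hdom hw2 huw.le (Nat.div_pos (by omega) (by omega))) (by positivity)
    · filter_upwards [ev] with Δ hΔ
      have hΔ' : (0 : ℝ) < Δ := by exact_mod_cast (by omega : 0 < Δ)
      rw [div_le_iff₀ (by positivity)]
      exact (hc Δ hΔ).2.2.1.trans (hc Δ hΔ).2.2.2
  have tc : Tendsto (fun Δ : ℕ => c Δ / (Δ : ℝ) ^ (Fintype.card W - u)) atTop
      (𝓝 (Lc H u w)) := by
    refine tendsto_of_tendsto_of_tendsto_of_le_of_le' tr tendsto_const_nhds ?_ ?_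
    · filter_upwards [ev] with Δ hΔ
      exact div_le_div_of_nonneg_right (hc Δ hΔ).2.2.1 (by positivity)
    · filter_upwards [ev] with Δ hΔ
      have hΔ' : (0 : ℝ) < Δ := by exact_mod_cast (by omega : 0 < Δ)
      rw [div_le_iff₀ (by positivity)]
      exact (hc Δ hΔ).2.2.2
  refine ⟨hL, c, fun Δ hΔ => hc Δ hΔ, tc, ?_⟩
  have t3 := tc.div tr hL.ne'
  rw [div_self hL.ne'] at t3
  refine t3.congr' ?_
  filter_upwards [ev] with Δ hΔ
  have hΔ' : (0 : ℝ) < (Δ : ℝ) ^ (Fintype.card W - u) := by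
    have : (0 : ℝ) < Δ := by exact_mod_cast (by omega : 0 < Δ)
    positivity
  change (c Δ / (Δ : ℝ) ^ (Fintype.card W - u)) /
    (rho H u w Δ / (Δ : ℝ) ^ (Fintype.card W - u)) = c Δ / rho H u w Δ
  rw [div_div_div_cancel_right₀ hΔ'.ne']

/-- edgeless graphs -/
theorem good_of_edgeless {ι : Type} [Fintype ι] [DecidableEq ι] {Hp : SimpleGraph ι}
    (h : ∀ a b, ¬ Hp.Adj a b) (n : ℕ) : HomGood Hp n := by
  have key : ∀ {V : Type} [Fintype V] (G : SimpleGraph V),
      Nat.card (Hp →g G) = Fintype.card V ^ Fintype.card ι := by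
    intro V _ G
    rw [← Fintype.card_fun, ← Nat.card_eq_fintype_card]
    exact Nat.card_congr ⟨fun f => f, fun x => ⟨x, fun {a b} hab => (h a b hab).elim⟩,
      fun f => rfl, fun x => rfl⟩
  intro m G _
  rw [key G, key (⊤ : SimpleGraph (Fin n)), Fintype.card_fin, Fintype.card_fin]
  push_cast
  rw [mul_comm]

/-- **Every graph `H`, all large `ω`.** Let `u ≥ 2`, let `H` be a graph on `u + s` vertices,
`s ≥ 1`, and `D` a set of `u` dominating vertices of `H`; let `e` be the number of the edges of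
`H - D`. The lower bound of the problem is asymptotically right for all `w > u` such that
`s (u - 1) ≤ w - 1` or `s ≤ 2`, and `w ≥ u + 2^e (s+1) (1 + 9 s e^3 + 6 s^2 e^4)` or `e = 0`;
in particular for all large `w`. -/
theorem result (u : ℕ) (hu : 2 ≤ u) (W : Type) [Fintype W] (H : SimpleGraph W)
    (D : Finset W) (hD : D.card = u) (hdom : ∀ v ∈ D, ∀ w, w ≠ v → H.Adj v w)
    (s : ℕ) (hs : 1 ≤ s) (hcard : Fintype.card W = u + s)
    (e : ℕ) (he : Nat.card (rest H D).edgeSet = e) (w : ℕ) (huw : u < w)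
    (h1 : s ≤ 2 ∨ s * u + 1 ≤ w + s)
    (h2 : e = 0 ∨ u + 2 ^ e * ((s + 1) * (1 + 9 * s * e ^ 3 + 6 * s ^ 2 * e ^ 4)) ≤ w) :
    Balanced H u w := by
  classical
  have hne : Nonempty W := Fintype.card_pos_iff.1 (by omega)
  have hW := card_rest D hD
  have hn : Fintype.card {w : W // w ∉ D} = (s - 1) + 1 := by omega
  have hn' : Fintype.card {w : W // w ∉ D} = s := by omega
  have hcond : s - 1 = 1 ∨ ((s - 1) + 1) * (u - 1) ≤ w - 1 := by
    have e1 : (s - 1) + 1 = s := by omega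
    rw [e1]
    have key : s * u + 1 ≤ w + s → s * (u - 1) ≤ w - 1 := by
      intro h
      obtain ⟨k, rfl⟩ : ∃ k, u = k + 1 := ⟨u - 1, by omega⟩
      rw [Nat.mul_add, Nat.mul_one] at h
      rw [Nat.add_sub_cancel]
      omega
    rcases h1 with h | h
    · have h3 : s = 1 ∨ s = 2 := by omega
      rcases h3 with rfl | rfl
      · right
        omega
      · left
        rfl
    · exact Or.inr (key h)
  have hfinH : Finite (H →g (⊤ : SimpleGraph (Fin w))) :=
    Finite.of_injective (fun g : (H →g (⊤ : SimpleGraph (Fin w))) => (fun a => g a))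
      (fun g g' h => RelHom.ext (congrFun h))
  rcases Nat.eq_zero_or_pos e with he0 | hepos
  · have hedge : ∀ a b, ¬ (rest H D).Adj a b := by
      intro a b hab
      rw [he0, Nat.card_eq_zero] at he
      rcases he with h | h
      · exact h.elim ⟨s(a, b), (mem_edgeSet _).2 hab⟩
      · exact h.not_finite inferInstance
    have hκ : 0 < w - u := by omega
    refine main hD hdom hn hu huw hcond (good_of_edgeless hedge _) ?_
    have hcolour : Nonempty (H →g (⊤ : SimpleGraph (Fin w))) := by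
      have h3 : 0 < Nat.card (H →g (⊤ : SimpleGraph (Fin w))) := by
        rw [card_col hD hdom w]
        refine Nat.mul_pos (Nat.pos_of_ne_zero ?_) ?_
        · intro h0
          rw [Nat.descFactorial_eq_zero_iff_lt] at h0
          omega
        · have hf : Nonempty (rest H D →g (⊤ : SimpleGraph (Fin (w - u)))) :=
            ⟨⟨fun _ => ⟨0, hκ⟩, fun {a b} hab => (hedge a b hab).elim⟩⟩
          have hfin : Finite (rest H D →g (⊤ : SimpleGraph (Fin (w - u)))) :=
            Finite.of_injective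
              (fun g : (rest H D →g (⊤ : SimpleGraph (Fin (w - u)))) => (fun a => g a))
              (fun g g' h => RelHom.ext (congrFun h))
          exact Nat.card_pos
      exact (Nat.card_pos_iff.1 h3).1
    exact Nat.card_pos
  · have h3 : u + 2 ^ e * ((s + 1) * (1 + 9 * s * e ^ 3 + 6 * s ^ 2 * e ^ 4)) ≤ w := by
      rcases h2 with h | h
      · omega
      · exact h
    have h4 : s + 1 ≤ 2 ^ e * ((s + 1) * (1 + 9 * s * e ^ 3 + 6 * s ^ 2 * e ^ 4)) := by
      calc s + 1 = 1 * ((s + 1) * 1) := by ring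
        _ ≤ 2 ^ e * ((s + 1) * (1 + 9 * s * e ^ 3 + 6 * s ^ 2 * e ^ 4)) := by
          refine Nat.mul_le_mul Nat.one_le_two_pow (Nat.mul_le_mul_left _ ?_)
          omega
    refine main hD hdom hn hu huw hcond (good_explicit (rest H D) hn' he (by omega) (by omega)) ?_
    obtain ⟨f⟩ : Nonempty (W ↪ Fin w) := by
      rw [Function.Embedding.nonempty_iff_card_le, Fintype.card_fin]
      omega
    have hf : Nonempty (H →g (⊤ : SimpleGraph (Fin w))) :=
      ⟨⟨f, fun {a b} hab => fun h => hab.ne (f.injective h)⟩⟩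
    exact Nat.card_pos

end Pool.Agent.Results.MP_5cc280_co.LargeOmega
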