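import Pool.Agent.H.MP_5cc280_co.Sf.Up

/-!
# Near-complete graphs, all `ω`

For every `u ≥ 2`, every graph `H` with at least `u` dominating vertices whose complement is a
forest of stars, and every `ω > u` such that `H` is `K_{ω+1}`-free, the lower bound of the problem
is asymptotically right,
`c_u(H,Δ,ω) ~ ρ_u(H, T_ω(Δ + ⌊Δ/(ω-1)⌋)) ~ P_H(ω) / (|Aut H| binom(ω,u)) (Δ/(ω-1))^(|V(H)|-u)`.
-/

namespace Pool.Agent.Results.MP_5cc280_co.NearComplete

open Finset SimpleGraph Filter Topology MP5cc280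

/-- The lower bound of the problem is asymptotically right for `u`, `H`, `ω = w`. For `Δ ≥ w` the
maxima `ex_u(p,H,{K_{1,Δ+1},K_{w+1}})` exist, `ex_u(p,..)/p` converges to `c Δ`, which lies between
`rho H u w Δ = ρ_u(H, T_w(Δ + ⌊Δ/(w-1)⌋))` and `Lc H u w * Δ^s`, `s = |V(H)| - u`. As `Δ → ∞`
`c Δ / Δ^s` tends to `Lc H u w > 0` and `c Δ / rho H u w Δ` to `1`. -/
def Balanced {W : Type} [Fintype W] (H : SimpleGraph W) (u w : ℕ) : Prop :=
  0 < Lc H u w ∧ ∃ c : ℕ → ℝ,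
    (∀ Δ, w ≤ Δ →
      (∀ p, IsGreatest (exSet u p H (FF Δ w)) (exu u p H (FF Δ w))) ∧
      Tendsto (fun p : ℕ => (exu u p H (FF Δ w) : ℝ) / p) atTop (𝓝 (c Δ)) ∧
      rho H u w Δ ≤ c Δ ∧ c Δ ≤ Lc H u w * (Δ : ℝ) ^ (Fintype.card W - u)) ∧
    Tendsto (fun Δ : ℕ => c Δ / (Δ : ℝ) ^ (Fintype.card W - u)) atTop (𝓝 (Lc H u w)) ∧
    Tendsto (fun Δ : ℕ => c Δ / rho H u w Δ) atTop (𝓝 1)

theorem upper {W : Type} [Fintype W] [DecidableEq W] {H : SimpleGraph W} {D : Finset W}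
    {A : Set W} {u w Δ p N : ℕ} (hA : Nm.Sf.St H A) (hD : D.card = u)
    (hdom : ∀ v ∈ D, ∀ w, w ≠ v → H.Adj v w) (hu : 2 ≤ u) (huw : u < w)
    (hN : N ∈ exSet u p H (FF Δ w)) :
    (N : ℝ) ≤ Lc H u w * (Δ : ℝ) ^ (Fintype.card W - u) * p := by
  classical
  obtain ⟨k, G, h1, h2, h3⟩ := hN
  have hst : (starGraph (0 : Fin (Δ+2))).Free G := h1 ⟨Δ+2, starGraph 0⟩ (Or.inl rfl)
  have hcl : (⊤ : SimpleGraph (Fin (w+1))).Free G := h1 ⟨w+1, ⊤⟩ (Or.inr rfl)
  rw [star_free_iff] at hst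
  rw [← cliqueFree_iff_top_free, Fintype.card_fin] at hcl
  rw [copyCount_top] at h2
  have hm := Nm.Sf.copies_le_sf (G := G) hA hD hdom hu huw hcl hst
  rw [h2, h3] at hm
  exact hm

theorem main {W : Type} [Fintype W] [DecidableEq W] [Nonempty W] {H : SimpleGraph W}
    {D : Finset W} {A : Set W} {u w : ℕ} (hA : Nm.Sf.St H A) (hD : D.card = u)
    (hdom : ∀ v ∈ D, ∀ w, w ≠ v → H.Adj v w) (hu : 2 ≤ u) (huw : u < w)
    (hcol : 0 < Nat.card (H →g (⊤ : SimpleGraph (Fin w)))) : Balanced H u w := by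
  classical
  have hcW : u ≤ Fintype.card W := hD ▸ card_le_univ D
  have hw2 : 2 ≤ w := by omega
  have hw1 : (0 : ℝ) < (w : ℝ) - 1 := by
    have : (2 : ℝ) ≤ w := by exact_mod_cast hw2
    linarith
  have haut : (0 : ℝ) < Nat.card (H ≃g H) := by exact_mod_cast aut_pos (H := H)
  have hch : (0 : ℝ) < (w.choose u : ℝ) := by exact_mod_cast Nat.choose_pos huw.le
  have hL : 0 < Lc H u w := by
    unfold Lc
    have h1 : (0 : ℝ) < Nat.card (H →g (⊤ : SimpleGraph (Fin w))) := by exact_mod_cast hcol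
    positivity
  have main : ∀ Δ, w ≤ Δ → ∃ c : ℝ,
      (∀ p, IsGreatest (exSet u p H (FF Δ w)) (exu u p H (FF Δ w))) ∧
      Tendsto (fun p : ℕ => (exu u p H (FF Δ w) : ℝ) / p) atTop (𝓝 c) ∧
      rho H u w Δ ≤ c ∧ c ≤ Lc H u w * (Δ : ℝ) ^ (Fintype.card W - u) := by
    intro Δ hΔ
    have hnonempty := exSet_nonempty (H := H) (u := u) (ω := w) (by omega) huw.le hΔ
    have hup : ∀ p, ∀ N ∈ exSet u p H (FF Δ w),
        (N : ℝ) ≤ Lc H u w * (Δ : ℝ) ^ (Fintype.card W - u) * p :=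
      fun p N hN => upper hA hD hdom hu huw hN
    obtain ⟨c, hc1, hc2, hc3⟩ := fekete (H := H) (u := u) (by omega) conn_FF hnonempty hup
    refine ⟨c, fun p => ?_, hc1, ?_, hc3⟩
    · have hb : BddAbove (exSet u p H (FF Δ w)) := by
        refine ⟨⌈Lc H u w * (Δ : ℝ) ^ (Fintype.card W - u) * p⌉₊, fun N hN => ?_⟩
        exact_mod_cast (hup p N hN).trans (Nat.le_ceil _)
      exact ⟨exu_mem (hnonempty p) hb, fun N hN => le_csSup hb hN⟩
    · have hm := mem_exSet (H := H) (turanGraph (tn Δ w) w) (u := u) (F := FF Δ w)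
        (turan_FF hw2)
      have hq : 0 < Δ / (w - 1) := Nat.div_pos (by omega) (by omega)
      have h3 := copyCount_mono (H := (⊤ : SimpleGraph (Fin u))) (turanLow (Δ := Δ) hw2)
      rw [copyCount_top (G := completeEquipartiteGraph w (Δ / (w - 1))), kk_equi] at h3
      have hpos : 0 < (turanGraph (tn Δ w) w).copyCount (⊤ : SimpleGraph (Fin u)) :=
        lt_of_lt_of_le (Nat.mul_pos (Nat.choose_pos huw.le) (pow_pos hq u)) h3
      exact hc2 _ hpos _ hm
  choose! c hc using main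
  have t1 : Tendsto (fun Δ : ℕ => Lc H u w * ((w : ℝ) - 1) ^ (Fintype.card W - u) *
      ((Δ / (w - 1) + 1 - Fintype.card W : ℕ) : ℝ) ^ Fintype.card W /
      ((Δ / (w - 1) + 1 : ℕ) : ℝ) ^ u /
      (Δ : ℝ) ^ (Fintype.card W - u)) atTop (𝓝 (Lc H u w)) :=
    low_tendsto hw2 _ hcW
  have ev : ∀ᶠ Δ : ℕ in atTop, w ≤ Δ := eventually_ge_atTop w
  have tr : Tendsto (fun Δ : ℕ => rho H u w Δ / (Δ : ℝ) ^ (Fintype.card W - u)) atTop
      (𝓝 (Lc H u w)) := by
    refine tendsto_of_tendsto_of_tendsto_of_le_of_le' t1 tendsto_const_nhds ?_ ?_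
    · filter_upwards [ev] with Δ hΔ
      exact div_le_div_of_nonneg_right
        (rho_ge hD hdom hw2 huw.le (Nat.div_pos (by omega) (by omega))) (by positivity)
    · filter_upwards [ev] with Δ hΔ
      have hΔ' : (0 : ℝ) < Δ := by exact_mod_cast (by omega : 0 < Δ)
      rw [div_le_iff₀ (by positivity)]
      exact (hc Δ hΔ).2.2.1.trans (hc Δ hΔ).2.2.2
  have tc : Tendsto (fun Δ : ℕ => c Δ / (Δ : ℝ) ^ (Fintype.card W - u)) atTop
      (𝓝 (Lc H u w)) := by
    refine tendsto_of_tendsto_of_tendsto_of_le_of_le' tr tendsto_const_nhds ?_ ?_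
    · filter_upwards [ev] with Δ hΔ
      exact div_le_div_of_nonneg_right (hc Δ hΔ).2.2.1 (by positivity)
    · filter_upwards [ev] with Δ hΔ
      have hΔ' : (0 : ℝ) < Δ := by exact_mod_cast (by omega : 0 < Δ)
      rw [div_le_iff₀ (by positivity)]
      exact (hc Δ hΔ).2.2.2
  refine ⟨hL, c, fun Δ hΔ => hc Δ hΔ, tc, ?_⟩
  have t3 := tc.div tr hL.ne'
  rw [div_self hL.ne'] at t3
  refine t3.congr' ?_
  filter_upwards [ev] with Δ hΔ
  have hΔ' : (0 : ℝ) < (Δ : ℝ) ^ (Fintype.card W - u) := by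
    have : (0 : ℝ) < Δ := by exact_mod_cast (by omega : 0 < Δ)
    positivity
  change (c Δ / (Δ : ℝ) ^ (Fintype.card W - u)) /
    (rho H u w Δ / (Δ : ℝ) ^ (Fintype.card W - u)) = c Δ / rho H u w Δ
  rw [div_div_div_cancel_right₀ hΔ'.ne']

/-- **Complements of star forests, all `ω`.** Let `u ≥ 2`, let `H` be a finite graph with a set
`D` of `u` dominating vertices, and let the vertex set be the union of two disjoint cliques `A` and
`V(H) \ A` such that every vertex outside `A` has at most one non-neighbour in `A` (that is, the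
complement of `H` is a forest of stars, `A` the set of their centres). For every `w > u` such that
`H` is `K_{w+1}`-free the lower bound of the problem is asymptotically right. -/
theorem result (u : ℕ) (hu : 2 ≤ u) (W : Type) [Fintype W] (H : SimpleGraph W)
    (D : Finset W) (hD : D.card = u) (hdom : ∀ v ∈ D, ∀ w, w ≠ v → H.Adj v w)
    (A : Set W) (h1 : ∀ a ∈ A, ∀ b ∈ A, a ≠ b → H.Adj a b)
    (h2 : ∀ a ∉ A, ∀ b ∉ A, a ≠ b → H.Adj a b)
    (h3 : ∀ b ∉ A, ∀ a ∈ A, ∀ c ∈ A, ¬ H.Adj b a → ¬ H.Adj b c → a = c)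
    (w : ℕ) (huw : u < w) (hf : H.CliqueFree (w + 1)) : Balanced H u w := by
  classical
  have hcW : u ≤ Fintype.card W := hD ▸ card_le_univ D
  have hne : Nonempty W := Fintype.card_pos_iff.1 (by omega)
  have hfinH : Finite (H →g (⊤ : SimpleGraph (Fin w))) :=
    Finite.of_injective (fun g : (H →g (⊤ : SimpleGraph (Fin w))) => (fun a => g a))
      (fun g g' h => RelHom.ext (congrFun h))
  have hA : Nm.Sf.St H A := ⟨h1, h2, h3⟩
  have hcol : Nonempty (H →g (⊤ : SimpleGraph (Fin w))) := Nm.Sf.sf_colorable hA hf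
  exact main hA hD hdom hu huw Nat.card_pos

end Pool.Agent.Results.MP_5cc280_co.NearComplete
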