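import Pool.Agent.H.MP_5cc280_co.Lim

/-!
# The case `ω = u + 1`, every graph `H`

For `ω = u + 1` and every graph `H` with at least `u` dominating vertices and clique number at
most `ω` (and at least `u + 2` vertices; the others are cliques) the constant `c_u(H, Δ, ω)` is
determined asymptotically: `c_u(H,Δ,u+1) ~ M Δ^s / s!`, `s = |V(H)| - u`, where `M` is the maximum
over `0 < ε ≤ 1/u` of
`(u ε^(s-1) + (1-(u-1)ε)^(s-1)) / (u/ε + 1/(1-(u-1)ε))`.
-/

namespace Pool.Agent.Results.MP_5cc280_co.OneAboveU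

open Finset SimpleGraph Filter Topology MP5cc280

/-- a `K_{u+2}`-free graph with a set `D` of `u` dominating vertices is the join of `D` and an
independent set -/
theorem adj_iff {W : Type} [DecidableEq W] {H : SimpleGraph W} {u : ℕ} {D : Finset W}
    (hD : D.card = u) (hdom : ∀ v ∈ D, ∀ w, w ≠ v → H.Adj v w) (hf : H.CliqueFree (u + 2))
    (a b : W) : H.Adj a b ↔ a ≠ b ∧ (a ∈ D ∨ b ∈ D) := by
  constructor
  · intro hab
    refine ⟨hab.ne, ?_⟩
    by_contra hc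
    push Not at hc
    have h1 : H.IsNClique u D := by
      rw [isNClique_iff]
      refine ⟨?_, hD⟩
      intro x hx y _ hxy
      exact hdom x hx y hxy.symm
    have h2 : H.IsNClique (u + 1) (insert b D) := h1.insert (fun d hd =>
      (hdom d hd b (fun h => hc.2 (h ▸ hd))).symm)
    refine hf (insert a (insert b D)) (h2.insert (fun d hd => ?_))
    rw [mem_insert] at hd
    rcases hd with rfl | hd
    · exact hab
    · exact (hdom d hd a (fun h => hc.1 (h ▸ hd))).symm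
  · rintro ⟨hne, ha | hb⟩
    · exact hdom a ha b hne.symm
    · exact (hdom b hb a hne).symm

theorem upper {W : Type} [Fintype W] [DecidableEq W] {H : SimpleGraph W} {D : Finset W}
    {u n Δ p N : ℕ} (hD : D.card = u) (hW : Fintype.card W = u + (n + 2))
    (hadj : ∀ a b, H.Adj a b ↔ a ≠ b ∧ (a ∈ D ∨ b ∈ D)) (hu : 2 ≤ u) {c : ℝ} (hc : 0 < c)
    (hg : ∀ ε : ℝ, 0 < ε → u * ε ≤ 1 → gfun u (n + 2) ε ≤ c)
    (hN : N ∈ exSet u p H (FF Δ (u + 1))) :
    (N : ℝ) ≤ c * (Δ : ℝ) ^ (n + 2) / (n + 2).factorial * p := by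
  classical
  obtain ⟨k, G, h1, h2, h3⟩ := hN
  have hst : (starGraph (0 : Fin (Δ+2))).Free G := h1 ⟨Δ+2, starGraph 0⟩ (Or.inl rfl)
  have hcl : (⊤ : SimpleGraph (Fin (u+1+1))).Free G := h1 ⟨u+1+1, ⊤⟩ (Or.inr rfl)
  rw [star_free_iff] at hst
  rw [← cliqueFree_iff_top_free, Fintype.card_fin] at hcl
  rw [copyCount_top] at h2
  have hm := copies_le (G := G) hD hW hadj hu hcl hst hc hg
  rw [h2, h3] at hm
  exact hm

theorem lower {W : Type} [Fintype W] [DecidableEq W] [Nonempty W] {H : SimpleGraph W}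
    {D : Finset W} {u s Δ : ℕ} (hu : 2 ≤ u) (hD : D.card = u) (hW : Fintype.card W = u + s)
    (hs : 2 ≤ s) (hadj : ∀ a b, H.Adj a b ↔ a ≠ b ∧ (a ∈ D ∨ b ∈ D)) {ε : ℝ} (hε : 0 < ε)
    (hε1 : u * ε ≤ 1) (hΔ : 0 < Δ) (ha : 0 < ⌊ε * Δ⌋₊) (hb : 0 < ⌊(1 - (u - 1) * ε) * Δ⌋₊)
    {c : ℝ} (hc : ∀ p, 0 < p → ∀ N ∈ exSet u p H (FF Δ (u + 1)), (N : ℝ) / p ≤ c) :
    lowf u s ε Δ ≤ c / (Δ : ℝ) ^ s := by
  have hΔ' : (0 : ℝ) < Δ := by exact_mod_cast hΔ
  have hu0 : (0 : ℝ) < u := by exact_mod_cast (by omega : 0 < u)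
  have hB := lim_B hε hε1
  set a := ⌊ε * (Δ : ℝ)⌋₊ with had
  set b := ⌊(1 - (u - 1) * ε) * (Δ : ℝ)⌋₊ with hbd
  have ha2 : (a : ℝ) ≤ ε * Δ := Nat.floor_le (by positivity)
  have hb2 : (b : ℝ) ≤ (1 - (u - 1) * ε) * Δ := Nat.floor_le (by positivity)
  let m : Fin (u + 1) → ℕ := Fin.cons b (fun _ => a)
  have hm : ∀ i, 0 < m i := by
    intro i
    refine Fin.cases ?_ (fun j => ?_) i
    · exact hb
    · exact ha
  have hsum : ∀ F : ℕ → ℝ, ∑ i, F (m i) = F b + u * F a := by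
    intro F
    rw [Fin.sum_univ_succ]
    have e : ∀ i : Fin u, F (m i.succ) = F a := fun i => rfl
    rw [sum_congr rfl (fun i _ => e i), sum_const, card_univ, Fintype.card_fin, nsmul_eq_mul]
    rfl
  have hdeg : ∀ j, ∑ i ∈ univ.erase j, m i ≤ Δ := by
    intro j
    have h1 : (m j : ℝ) + ∑ i ∈ univ.erase j, (m i : ℝ) = b + u * a := by
      rw [add_sum_erase univ (fun i => (m i : ℝ)) (mem_univ j)]
      exact hsum (fun k => (k : ℝ))
    have h2 : (∑ i ∈ univ.erase j, (m i : ℝ)) ≤ Δ := by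
      revert h1
      refine Fin.cases ?_ (fun i => ?_) j
      · intro h1
        have e0 : m 0 = b := rfl
        rw [e0] at h1
        have h3 : (u : ℝ) * a ≤ u * (ε * Δ) := mul_le_mul_of_nonneg_left ha2 hu0.le
        have h4 : (u : ℝ) * (ε * Δ) ≤ Δ := by
          rw [← mul_assoc]
          exact mul_le_of_le_one_left hΔ'.le hε1
        linarith
      · intro h1
        have e0 : m i.succ = a := rfl
        rw [e0] at h1
        have h3 : ((u : ℝ) - 1) * a ≤ (u - 1) * (ε * Δ) := by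
          refine mul_le_mul_of_nonneg_left ha2 ?_
          have : (2 : ℝ) ≤ u := by exact_mod_cast hu
          linarith
        have h4 : (1 - ((u : ℝ) - 1) * ε) * Δ + (u - 1) * (ε * Δ) = Δ := by ring
        have h5 : (u : ℝ) * a = a + (u - 1) * a := by ring
        linarith
    exact_mod_cast h2
  have h1 := cmg_ratio hD hW hs hadj hm hdeg hc
  rw [hsum (fun k => (k.choose s : ℝ) / k), hsum (fun k => 1 / (k : ℝ))] at h1
  refine (lowf_le (u := u) (s := s) ha hb hΔ).trans ?_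
  exact div_le_div_of_nonneg_right h1 (by positivity)

/-- **The case `ω = u + 1`.** Let `u ≥ 2` and let `H` be a graph with at least `u` dominating
vertices, clique number at most `u + 1` and `u + s` vertices, `s ≥ 2`. Let `M` be the maximum of
`gfun u s ε` over `0 < ε ≤ 1/u`. For every `Δ ≥ u + 1` the maxima
`ex_u(p,H,{K_{1,Δ+1},K_{u+2}})` exist, `ex_u(p,..)/p` converges to a limit `c Δ ≤ M Δ^s/s!`, and
`c Δ/Δ^s → M/s!` as `Δ → ∞`. Moreover `1/u^s ≤ M`, `1/(4u(u+1)s) ≤ M ≤ 2/(u^2+1)`, and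
`M = 1/u^2` if `s = 2`. -/
theorem result (u : ℕ) (hu : 2 ≤ u) (W : Type) [Fintype W] (H : SimpleGraph W)
    (hdom : u ≤ Nat.card {v : W // ∀ w, w ≠ v → H.Adj v w}) (hfree : H.CliqueFree (u + 2))
    (s : ℕ) (hs : 2 ≤ s) (hcard : Fintype.card W = u + s) :
    ∃ M : ℝ, IsGreatest (gfun u s '' Set.Ioc 0 (1 / (u : ℝ))) M ∧
      1 / (u : ℝ) ^ s ≤ M ∧ 1 / (4 * u * (u + 1) * s) ≤ M ∧ M ≤ 2 / (u ^ 2 + 1) ∧
      (s = 2 → M = 1 / (u : ℝ) ^ 2) ∧
      ∃ c : ℕ → ℝ,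
        (∀ Δ, u + 1 ≤ Δ →
          (∀ p, IsGreatest (exSet u p H (FF Δ (u + 1))) (exu u p H (FF Δ (u + 1)))) ∧
          Tendsto (fun p : ℕ => (exu u p H (FF Δ (u + 1)) : ℝ) / p) atTop (𝓝 (c Δ)) ∧
          c Δ ≤ M * (Δ : ℝ) ^ s / s.factorial) ∧
        Tendsto (fun Δ : ℕ => c Δ / (Δ : ℝ) ^ s) atTop (𝓝 (M / s.factorial)) := by
  classical
  have hne : Nonempty W := Fintype.card_pos_iff.1 (by omega)
  have hu0 : (0 : ℝ) < u := by exact_mod_cast (by omega : 0 < u)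
  obtain ⟨D, hDs, hD⟩ : ∃ D ⊆ univ.filter (fun v : W => ∀ w, w ≠ v → H.Adj v w), D.card = u := by
    refine exists_subset_card_eq ?_
    rw [Nat.card_eq_fintype_card, Fintype.card_subtype] at hdom
    exact hdom
  have hdom' : ∀ v ∈ D, ∀ w, w ≠ v → H.Adj v w := fun v hv => (mem_filter.1 (hDs hv)).2
  have hadj := adj_iff hD hdom' hfree
  obtain ⟨n, rfl⟩ : ∃ n, s = n + 2 := ⟨s - 2, by omega⟩
  obtain ⟨M, hM⟩ := gfun_max (u := u) (n := n) hu
  have hg : ∀ ε : ℝ, 0 < ε → u * ε ≤ 1 → gfun u (n + 2) ε ≤ M := by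
    intro ε h1 h2
    refine hM.2 ⟨ε, ⟨h1, ?_⟩, rfl⟩
    rw [le_div_iff₀ hu0]
    linarith
  obtain ⟨ε0, hε0, hMε⟩ := hM.1
  have hε1 : u * ε0 ≤ 1 := by
    have := mul_le_mul_of_nonneg_left hε0.2 hu0.le
    rwa [mul_one_div_cancel hu0.ne'] at this
  have hM0 : 0 < M := by
    rw [← hMε]
    exact gfun_pos hu hε0.1 hε1
  have hu1 : (u : ℝ) * (1 / u) ≤ 1 := by rw [mul_one_div_cancel hu0.ne']
  refine ⟨M, hM, ?_, ?_, ?_, ?_, ?_⟩
  · rw [← gfun_balanced hu (by omega)]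
    exact hg _ (by positivity) hu1
  · have hs2 : (2 : ℝ) ≤ ((n + 2 : ℕ) : ℝ) := by exact_mod_cast hs
    refine (gfun_lower hu hs).trans (hg _ (by positivity) ?_)
    rw [mul_one_div, div_mul_eq_div_div, div_self hu0.ne', div_le_one (by linarith)]
    linarith
  · rw [← hMε]
    exact gfun_le_two hu hε0.1 hε1
  · intro h2
    obtain rfl : n = 0 := by omega
    refine le_antisymm ?_ ?_
    · rw [← hMε]
      exact gfun_two_le hu hε0.1 hε1
    · rw [← gfun_balanced hu (by omega)]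
      exact hg _ (by positivity) hu1
  · have main : ∀ Δ, u + 1 ≤ Δ → ∃ c : ℝ,
        (∀ p, IsGreatest (exSet u p H (FF Δ (u + 1))) (exu u p H (FF Δ (u + 1)))) ∧
        Tendsto (fun p : ℕ => (exu u p H (FF Δ (u + 1)) : ℝ) / p) atTop (𝓝 c) ∧
        c ≤ M * (Δ : ℝ) ^ (n + 2) / (n + 2).factorial ∧
        (∀ p, 0 < p → ∀ N ∈ exSet u p H (FF Δ (u + 1)), (N : ℝ) / p ≤ c) := by
      intro Δ hΔ
      have hnonempty := exSet_nonempty (H := H) (u := u) (ω := u + 1) (by omega)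
        (by omega : u ≤ u + 1) hΔ
      have hup : ∀ p, ∀ N ∈ exSet u p H (FF Δ (u + 1)),
          (N : ℝ) ≤ M * (Δ : ℝ) ^ (n + 2) / (n + 2).factorial * p :=
        fun p N hN => upper hD hcard hadj hu hM0 hg hN
      obtain ⟨c, hc1, hc2, hc3⟩ := fekete (H := H) (u := u) (by omega) conn_FF hnonempty hup
      refine ⟨c, fun p => ?_, hc1, hc3, hc2⟩
      have hb : BddAbove (exSet u p H (FF Δ (u + 1))) := by
        refine ⟨⌈M * (Δ : ℝ) ^ (n + 2) / (n + 2).factorial * p⌉₊, fun N hN => ?_⟩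
        exact_mod_cast (hup p N hN).trans (Nat.le_ceil _)
      exact ⟨exu_mem (hnonempty p) hb, fun N hN => le_csSup hb hN⟩
    choose! c hc using main
    refine ⟨c, fun Δ hΔ => ⟨(hc Δ hΔ).1, (hc Δ hΔ).2.1, (hc Δ hΔ).2.2.1⟩, ?_⟩
    have hlow := lowf_tendsto hu (s := n + 2) (by omega) hε0.1 hε1
    rw [hMε] at hlow
    have hB := lim_B hε0.1 hε1
    refine tendsto_of_tendsto_of_tendsto_of_le_of_le' hlow tendsto_const_nhds ?_ ?_
    · have t1 : Tendsto (fun Δ : ℕ => ε0 * (Δ : ℝ)) atTop atTop :=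
        tendsto_natCast_atTop_atTop.const_mul_atTop hε0.1
      have t2 : Tendsto (fun Δ : ℕ => (1 - (u - 1) * ε0) * (Δ : ℝ)) atTop atTop :=
        tendsto_natCast_atTop_atTop.const_mul_atTop hB
      filter_upwards [eventually_ge_atTop (u + 1), t1.eventually_ge_atTop 1,
        t2.eventually_ge_atTop 1] with Δ h1 h2 h3
      exact lower hu hD hcard hs hadj hε0.1 hε1 (by omega) (Nat.floor_pos.2 h2)
        (Nat.floor_pos.2 h3) (hc Δ h1).2.2.2
    · filter_upwards [eventually_ge_atTop (u + 1)] with Δ h1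
      have hΔ' : (0 : ℝ) < Δ := by exact_mod_cast (by omega : 0 < Δ)
      rw [div_le_iff₀ (by positivity)]
      refine (hc Δ h1).2.2.1.trans (le_of_eq ?_)
      ring

end Pool.Agent.Results.MP_5cc280_co.OneAboveU
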