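import Pool.Agent.H.MP_5cc280_co.PUpE
import Pool.Agent.H.MP_5cc280_co.PBal

/-!
# Cliques whose vertices miss at most one vertex

The lower bound of the problem is asymptotically right for the graphs `H` with a clique `T` that
contains `u` dominating vertices of `H` and each of whose vertices has at most one non-neighbour:
at `ω = |T|`, for all `ω ≥ ω(H)` if there are at most two vertices outside `T`, and, without edges
outside `T`, for all `ω ≥ 1 + j (|T| - 1)` if there are `j` vertices outside `T`.
-/

namespace Pool.Agent.Results.MP_5cc280_co.PendantCo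

open Finset SimpleGraph Filter Topology MP5cc280

/-- The lower bound of the problem is asymptotically right for `u`, `H`, `ω = w`. For `Δ ≥ w` the
maxima `ex_u(p,H,{K_{1,Δ+1},K_{w+1}})` exist, `ex_u(p,..)/p` converges to `c Δ`, which lies between
`rho H u w Δ = ρ_u(H, T_w(Δ + ⌊Δ/(w-1)⌋))` and `Lc H u w * Δ^s`, `s = |V(H)| - u`. As `Δ → ∞`
`c Δ / Δ^s` tends to `Lc H u w > 0` and `c Δ / rho H u w Δ` to `1`. -/
def Balanced {W : Type} [Fintype W] (H : SimpleGraph W) (u w : ℕ) : Prop :=
  0 < Lc H u w ∧ ∃ c : ℕ → ℝ,
    (∀ Δ, w ≤ Δ →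
      (∀ p, IsGreatest (exSet u p H (FF Δ w)) (exu u p H (FF Δ w))) ∧
      Tendsto (fun p : ℕ => (exu u p H (FF Δ w) : ℝ) / p) atTop (𝓝 (c Δ)) ∧
      rho H u w Δ ≤ c Δ ∧ c Δ ≤ Lc H u w * (Δ : ℝ) ^ (Fintype.card W - u)) ∧
    Tendsto (fun Δ : ℕ => c Δ / (Δ : ℝ) ^ (Fintype.card W - u)) atTop (𝓝 (Lc H u w)) ∧
    Tendsto (fun Δ : ℕ => c Δ / rho H u w Δ) atTop (𝓝 1)

/-- **Cliques whose vertices miss at most one vertex.** Let `2 ≤ u < w`, let `H` be a
`K_{w+1}`-free graph, `D` a set of `u` dominating vertices of `H`, `T ⊇ D` a clique of `H` with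
`N` vertices, each of which has at most one non-neighbour among the other `j` vertices. The lower
bound of the problem is asymptotically right for `ω = w` if `w = N`, if `j ≤ 2`, and also if there
are no edges outside `T` and `j (N - 1) ≤ w - 1`. -/
theorem result (u w : ℕ) (hu : 2 ≤ u) (huw : u < w) (W : Type) [Fintype W]
    (H : SimpleGraph W) (hfree : H.CliqueFree (w + 1)) (D : Finset W) (hD : D.card = u)
    (hdom : ∀ v ∈ D, ∀ x, x ≠ v → H.Adj v x)
    (N j : ℕ) (hcard : Fintype.card W = N + j) (T : Finset W) (hT : H.IsNClique N T)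
    (hDT : D ⊆ T)
    (hone : ∀ t ∈ T, ∀ a, a ∉ T → ∀ b, b ∉ T → ¬ H.Adj t a → ¬ H.Adj t b → a = b)
    (hw : w = N ∨ j ≤ 2 ∨ (∀ a, a ∉ T → ∀ b, b ∉ T → ¬ H.Adj a b) ∧ j * N + 1 ≤ w + j) :
    Balanced H u w := by
  classical
  have hTc : T.card = N := hT.card_eq
  obtain ⟨v0, hv0⟩ : D.Nonempty := Finset.card_pos.1 (by omega)
  have hne : Nonempty W := ⟨v0⟩
  have huN : u ≤ N := by
    rw [← hD, ← hTc]
    exact card_le_card hDT
  have hNw : N ≤ w := by
    by_contra h
    exact (hfree.mono (by omega : w + 1 ≤ N)) T hT
  let M : {e : W // e ∉ T} → Finset {t : W // t ∈ T} :=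
    fun e => univ.filter (fun t => ¬ H.Adj e t)
  have hadj : ∀ (e : {e : W // e ∉ T}) (t : {t : W // t ∈ T}), t ∉ M e ↔ H.Adj e t := by
    intro e t
    simp only [M, mem_filter, mem_univ, true_and, not_not]
  have hdis : ∀ a b t, t ∈ M a → t ∈ M b → a = b := by
    intro a b t ha hb
    simp only [M, mem_filter, mem_univ, true_and] at ha hb
    exact Subtype.ext (hone t t.2 a a.2 b b.2 (fun h => ha h.symm) (fun h => hb h.symm))
  have hd : ∀ e, (⟨v0, hDT hv0⟩ : {t : W // t ∈ T}) ∉ M e := by
    intro e
    rw [hadj]
    have h1 : (e : W) ≠ v0 := fun h => e.2 (h ▸ hDT hv0)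
    exact (hdom v0 hv0 e h1).symm
  have hW := card_rest T hTc
  have hc : Fintype.card {e : W // e ∉ T} = j := by omega
  have hpos : w = N ∨ (∀ a ∉ T, ∀ b ∉ T, ¬ H.Adj a b) → ∀ e, 0 < w - N + (M e).card := by
    intro _ e
    rcases Nat.lt_or_ge N w with h | h
    · omega
    · have hwN : w = N := le_antisymm h hNw
      have h1 : 0 < (M e).card := by
        rw [Finset.card_pos]
        by_contra h2
        rw [not_nonempty_iff_eq_empty] at h2
        have h3 : ∀ t ∈ T, H.Adj e t := fun t ht =>
          (hadj e ⟨t, ht⟩).1 (by rw [h2]; exact notMem_empty _)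
        have h4 := hT.insert (a := (e : W)) h3
        rw [hwN] at hfree
        exact hfree _ h4
      omega
  have haut : (0 : ℝ) < Nat.card (H ≃g H) := by exact_mod_cast aut_pos (H := H)
  -- the bound for the labelled copies gives the theorem
  have fin : 0 < Nat.card (H →g (⊤ : SimpleGraph (Fin w))) →
      (∀ (Δ k : ℕ) (G : SimpleGraph (Fin k)) (_ : DecidableRel G.Adj), G.CliqueFree (w + 1) →
        (∀ v, G.degree v ≤ Δ) → (Nat.card (Copy H G) : ℝ) ≤
        Nat.card (H →g (⊤ : SimpleGraph (Fin w))) /
        (w.choose u * ((w : ℝ) - 1) ^ (Fintype.card W - u)) *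
        (Δ : ℝ) ^ (Fintype.card W - u) * kk G u) → Balanced H u w := by
    intro hcol hup
    refine bal_of_upper (s := Fintype.card W - u) hD hdom (by omega) hu huw hcol ?_
    intro Δ hΔ p M' hM'
    obtain ⟨k, G, h1, h2, h3⟩ := hM'
    have hst : (starGraph (0 : Fin (Δ+2))).Free G := h1 ⟨Δ+2, starGraph 0⟩ (Or.inl rfl)
    have hcl : (⊤ : SimpleGraph (Fin (w+1))).Free G := h1 ⟨w+1, ⊤⟩ (Or.inr rfl)
    rw [star_free_iff] at hst
    rw [← cliqueFree_iff_top_free, Fintype.card_fin] at hcl
    rw [copyCount_top] at h2
    have hm := hup Δ k G _ hcl hst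
    rw [h2] at hm
    have h6 : (Nat.card (Copy H G) : ℝ) = G.copyCount H * Nat.card (H ≃g H) := by
      exact_mod_cast card_copy (G := G) (H := H)
    rw [h6, h3, ← le_div_iff₀ haut] at hm
    refine hm.trans (le_of_eq ?_)
    unfold Lc
    rw [mul_assoc ((Nat.card (H ≃g H) : ℝ)), mul_comm ((Nat.card (H ≃g H) : ℝ)), ← div_div]
    ring
  -- no edges outside `T`, or `w = N`
  have plain : (w = N ∨ (∀ a ∉ T, ∀ b ∉ T, ¬ H.Adj a b) ∧
      (Fintype.card {e : W // e ∉ T} ≤ 2 ∨ Fintype.card {e : W // e ∉ T} * (N - 1) ≤ w - 1)) →
      Balanced H u w := by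
    intro hj
    refine fin ?_ ?_
    · refine lt_of_lt_of_le ?_ (card_col_geM (H := H) (w := w) hTc M
        (fun e t ht h => (hadj e t).2 h ht) hdis (hj.imp_right fun h => h.1))
      refine Nat.mul_pos ?_ (Finset.prod_pos fun e _ => hpos (hj.imp_right fun h => h.1) e)
      rw [Nat.descFactorial_pos]
      exact hNw
    · intro Δ k G _ hcl hst
      exact upper_pendantG (G := G) hT M hdis hadj hd hu huN hNw huw hcl hst hj
  rcases hw with h | h | ⟨h, h2⟩
  · exact plain (Or.inl h)
  · by_cases hE : ∀ a ∉ T, ∀ b ∉ T, ¬ H.Adj a b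
    · exact plain (Or.inr ⟨hE, Or.inl (by omega)⟩)
    · by_cases hwN : w = N
      · exact plain (Or.inl hwN)
      · have hlt : N < w := lt_of_le_of_ne hNw (Ne.symm hwN)
        push Not at hE
        obtain ⟨a0, ha0, b0, hb0, hab0⟩ := hE
        let a : {e : W // e ∉ T} := ⟨a0, ha0⟩
        let b : {e : W // e ∉ T} := ⟨b0, hb0⟩
        have hab : H.Adj (a : W) b := hab0
        have hne' : a ≠ b := fun h => hab.ne (congrArg Subtype.val h)
        have hall : ∀ e, e = a ∨ e = b := by
          intro e
          by_contra h3
          push Not at h3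
          have h4 : ({e, a, b} : Finset {e : W // e ∉ T}).card = 3 := by
            rw [card_insert_of_notMem, card_pair hne']
            rw [mem_insert, mem_singleton]
            rintro (h5 | h5)
            · exact h3.1 h5
            · exact h3.2 h5
          have h5 := card_le_univ ({e, a, b} : Finset {e : W // e ∉ T})
          omega
        have hmm : (M a).card + (M b).card + 2 ≤ N := by
          have h3 : Disjoint (M a) (M b) := by
            rw [Finset.disjoint_left]
            exact fun t h4 h5 => hne' (hdis a b t h4 h5)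
          let D' : Finset {t : W // t ∈ T} := univ.filter (fun t => (t : W) ∈ D)
          have h4 : D'.card = u := by
            rw [← hD]
            refine card_bij (fun t _ => (t : W)) ?_ ?_ ?_
            · intro t ht
              exact (mem_filter.1 ht).2
            · intro t _ s _ hts
              exact Subtype.ext hts
            · intro x hx
              exact ⟨⟨x, hDT hx⟩, mem_filter.2 ⟨mem_univ _, hx⟩, rfl⟩
          have h5 : Disjoint (M a ∪ M b) D' := by
            rw [Finset.disjoint_left]
            intro t h6 h7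
            have h8 : (t : W) ∈ D := (mem_filter.1 h7).2
            have h9 : ∀ e, t ∉ M e := by
              intro e
              rw [hadj]
              have h1 : (e : W) ≠ t := fun h => e.2 (h ▸ t.2)
              exact (hdom t h8 e h1).symm
            rcases mem_union.1 h6 with h | h
            · exact h9 a h
            · exact h9 b h
          have h6 := card_le_univ ((M a ∪ M b) ∪ D')
          rw [card_union_of_disjoint h5, card_union_of_disjoint h3, h4, Fintype.card_coe,
            hTc] at h6
          omega
        refine fin ?_ ?_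
        · have h3 := card_col_ge_edge (H := H) (w := w) hTc hNw M
            (fun e t ht h => (hadj e t).2 h ht) hdis hne' hall
          have h4 : (0 : ℝ) < (w.descFactorial N : ℝ) := by
            exact_mod_cast (Nat.descFactorial_pos.2 hNw)
          have h5 : 0 < ((w : ℝ) - N + (M a).card) * ((w : ℝ) - N + (M b).card) -
              ((w : ℝ) - N) := by
            have ha : (0 : ℝ) ≤ (M a).card := Nat.cast_nonneg _
            have hb : (0 : ℝ) ≤ (M b).card := Nat.cast_nonneg _
            rcases Nat.lt_or_ge (N + 1) w with h6 | h6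
            · have h7 : ((N + 2 : ℕ) : ℝ) ≤ w := by exact_mod_cast h6
              push_cast at h7
              nlinarith
            · have h7 : w = N + 1 := by omega
              have h8 : 0 < (M a).card + (M b).card := by
                by_contra h9
                have hMa : M a = ∅ := by
                  rw [← card_eq_zero]
                  omega
                have hMb : M b = ∅ := by
                  rw [← card_eq_zero]
                  omega
                have h10 : ∀ t ∈ T, H.Adj (b : W) t := fun t ht =>
                  (hadj b ⟨t, ht⟩).1 (by rw [hMb]; exact notMem_empty _)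
                have h11 := hT.insert (a := (b : W)) h10
                have h12 : ∀ t ∈ insert (b : W) T, H.Adj (a : W) t := by
                  intro t ht
                  rcases mem_insert.1 ht with rfl | ht
                  · exact hab
                  · exact (hadj a ⟨t, ht⟩).1 (by rw [hMa]; exact notMem_empty _)
                have h13 := h11.insert (a := (a : W)) h12
                rw [h7] at hfree
                exact hfree _ h13
              have h9 : (1 : ℝ) ≤ (M a).card + (M b).card := by exact_mod_cast h8
              have h10 : (w : ℝ) - N = 1 := by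
                rw [h7]
                push_cast
                ring
              rw [h10]
              nlinarith
          have h6 : (0 : ℝ) < Nat.card (H →g (⊤ : SimpleGraph (Fin w))) :=
            lt_of_lt_of_le (mul_pos h4 h5) h3
          exact_mod_cast h6
        · intro Δ k G _ hcl hst
          exact upper_edge (G := G) hT M hdis hadj hd hab hall hmm hu huN hlt hcl hst
  · refine plain (Or.inr ⟨h, Or.inr ?_⟩)
    rw [hc]
    obtain ⟨n, rfl⟩ : ∃ n, N = n + 1 := ⟨N - 1, by omega⟩
    rw [Nat.mul_add, Nat.mul_one] at h2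
    rw [Nat.add_sub_cancel]
    omega

end Pool.Agent.Results.MP_5cc280_co.PendantCo
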